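import Mathlib
import Pool.Agent.W795.DD.Stm
import Pool.Agent.W785.DF.Alg

/-!
# Part DD-CHAIN
-/

set_option autoImplicit false

open MeasureTheory Set Filter Topology
open scoped ENNReal

namespace Pool.Agent.W948.DD

open H459R3.NS (V K3)
open Pool.Agent.W785.DF (E3 dk kv cj Fld Fr dk_add cj_add cj_zero dk_zero dk_smul cj_smul cj_kv
  dk_neg_left sq_neg' sq_zero' sq_nonneg')
open Pool.Agent.W795.DD

/-! ### fields -/

lemma fld_zero (F : Finset K3) : Fld F (0 : K3 → E3) where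
  supp := fun _ _ => rfl
  sym := fun k => by rw [Pi.zero_apply, Pi.zero_apply, cj_zero]
  div := fun k => by rw [Pi.zero_apply, dk_zero]

lemma fld_add {F : Finset K3} {a b : K3 → E3} (ha : Fld F a) (hb : Fld F b) : Fld F (a + b) where
  supp := fun k hk => by rw [Pi.add_apply, ha.supp k hk, hb.supp k hk, add_zero]
  sym := fun k => by rw [Pi.add_apply, Pi.add_apply, cj_add, ha.sym, hb.sym]
  div := fun k => by rw [Pi.add_apply, dk_add, ha.div, hb.div, add_zero]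

lemma fld_mono {F G : Finset K3} (h : F ⊆ G) {a : K3 → E3} (ha : Fld F a) : Fld G a where
  supp := fun k hk => ha.supp k fun h2 => hk (h h2)
  sym := ha.sym
  div := ha.div

lemma ne_neg {μ : K3} (h : μ ≠ 0) : μ ≠ -μ := by
  intro e
  apply h
  funext j
  have := congrFun e j
  simp only [Pi.neg_apply] at this
  simp only [Pi.zero_apply]
  omega

lemma dk_kv' (μ p : K3) (h : ∑ j, μ j * p j = 0) : dk μ (kv p) = 0 := by
  have h2 : ((∑ j, μ j * p j : ℤ) : ℂ) = 0 := by rw [h]; simp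
  simp only [dk, kv]
  push_cast at h2
  exact h2

lemma fld_MF {F : Finset K3} (hF : Fr F) {μ p : K3} (hμ : μ ∈ F) (h : ∑ j, μ j * p j = 0)
    (z : ℂ) : Fld F (MF μ p z) := by
  have hμ0 : μ ≠ 0 := fun e => hF.zero (e ▸ hμ)
  have hne := ne_neg hμ0
  refine ⟨fun k hk => ?_, fun k => ?_, fun k => ?_⟩
  · unfold MF
    rw [if_neg (fun e : k = μ => hk (by rw [e]; exact hμ)),
      if_neg (fun e : k = -μ => hk (by rw [e]; exact hF.neg μ hμ))]
  · unfold MF
    by_cases h1 : k = μ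
    · rw [if_pos h1, h1, if_neg (fun e => hne e.symm), if_pos rfl, cj_smul, cj_kv]
    · rw [if_neg h1]
      by_cases h2 : k = -μ
      · rw [if_pos h2, h2, neg_neg, if_pos rfl, cj_smul, cj_kv, star_star]
      · rw [if_neg h2, if_neg (fun e => h2 (by rw [← e, neg_neg])),
          if_neg (fun e => h1 (neg_injective e)), cj_zero]
  · unfold MF
    by_cases h1 : k = μ
    · rw [if_pos h1, h1, dk_smul, dk_kv' μ p h, mul_zero]
    · rw [if_neg h1]
      by_cases h2 : k = -μ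
      · rw [if_pos h2, h2, dk_smul, dk_neg_left, dk_kv' μ p h, neg_zero, mul_zero]
      · rw [if_neg h2, dk_zero]

lemma fr_union {F F' : Finset K3} {μ : K3} (hF : Fr F) (hF' : Fr F') (hμ : μ ≠ 0) :
    Fr (F ∪ ({μ, -μ} ∪ F')) where
  zero := by
    simp only [Finset.mem_union, Finset.mem_insert, Finset.mem_singleton, not_or]
    refine ⟨hF.zero, ⟨fun e => hμ e.symm, fun e => hμ ?_⟩, hF'.zero⟩
    rw [← neg_neg μ, ← e, neg_zero]
  neg := by
    intro k hk
    simp only [Finset.mem_union, Finset.mem_insert, Finset.mem_singleton] at hk ⊢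
    rcases hk with h | (h | h) | h
    · exact Or.inl (hF.neg k h)
    · exact Or.inr (Or.inl (Or.inr (by rw [h])))
    · exact Or.inr (Or.inl (Or.inl (by rw [h, neg_neg])))
    · exact Or.inr (Or.inr (hF'.neg k h))

/-! ### the norm -/

open Classical in
lemma crq_zero {q : ℝ} (hq : 0 < q) : crq q (0 : K3 → E3) = 0 := by
  unfold crq
  rw [ENNReal.tsum_eq_zero]
  intro j
  have : (∑' k : K3, if k ∈ shell j then ‖(0 : K3 → E3) k‖ₑ else 0) = 0 := by
    rw [ENNReal.tsum_eq_zero]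
    intro k
    split_ifs <;> simp
  rw [this, mul_zero, ENNReal.zero_rpow_of_pos hq]

open Classical in
lemma crq_add {q : ℝ} {W w : K3 → E3} (J : ℕ)
    (hW : ∀ k, (4 : ℝ) ^ J ≤ W785.DF.sq k → W k = 0)
    (hw : ∀ k, W785.DF.sq k < (4 : ℝ) ^ J → w k = 0) :
    crq q (W + w) ≤ crq q W + crq q w := by
  unfold crq
  rw [← ENNReal.tsum_add]
  apply ENNReal.tsum_le_tsum
  intro j
  by_cases hj : j < J
  · have e : (∑' k : K3, if k ∈ shell j then ‖(W + w) k‖ₑ else 0) =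
        ∑' k : K3, if k ∈ shell j then ‖W k‖ₑ else 0 := by
      apply tsum_congr
      intro k
      split_ifs with h
      · have h1 : W785.DF.sq k < (4 : ℝ) ^ J :=
          lt_of_lt_of_le h.2 (pow_le_pow_right₀ (by norm_num) hj)
        rw [Pi.add_apply, hw k h1, add_zero]
      · rfl
    rw [e]
    exact le_self_add
  · have e : (∑' k : K3, if k ∈ shell j then ‖(W + w) k‖ₑ else 0) =
        ∑' k : K3, if k ∈ shell j then ‖w k‖ₑ else 0 := by
      apply tsum_congr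
      intro k
      split_ifs with h
      · have h1 : (4 : ℝ) ^ J ≤ W785.DF.sq k :=
          (pow_le_pow_right₀ (by norm_num) (not_lt.1 hj)).trans h.1
        rw [Pi.add_apply, hW k h1, zero_add]
      · rfl
    rw [e]
    exact le_add_self

lemma tsum_rpow_le {q : ℝ} (hq : 1 ≤ q) (x : ℕ → ℝ≥0∞) : ∑' j, x j ^ q ≤ (∑' j, x j) ^ q := by
  have h1 : ∀ j, x j ^ q ≤ x j * (∑' j, x j) ^ (q - 1) := by
    intro j
    calc x j ^ q = x j ^ (1 + (q - 1)) := by ring_nf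
      _ = x j ^ (1 : ℝ) * x j ^ (q - 1) :=
          ENNReal.rpow_add_of_nonneg _ _ zero_le_one (by linarith)
      _ ≤ x j * (∑' j, x j) ^ (q - 1) := by
          rw [ENNReal.rpow_one]
          gcongr
          exact ENNReal.le_tsum j
  calc ∑' j, x j ^ q ≤ ∑' j, x j * (∑' j, x j) ^ (q - 1) := ENNReal.tsum_le_tsum h1
    _ = (∑' j, x j) * (∑' j, x j) ^ (q - 1) := ENNReal.tsum_mul_right
    _ = (∑' j, x j) ^ (1 : ℝ) * (∑' j, x j) ^ (q - 1) := by rw [ENNReal.rpow_one]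
    _ = (∑' j, x j) ^ (1 + (q - 1)) :=
        (ENNReal.rpow_add_of_nonneg _ _ zero_le_one (by linarith)).symm
    _ = _ := by ring_nf

lemma shell_inj {k : K3} {i j : ℕ} (hi : k ∈ shell i) (hj : k ∈ shell j) : i = j := by
  by_contra hne
  rcases lt_or_gt_of_ne hne with h | h
  · have h1 : (4 : ℝ) ^ (i + 1) ≤ 4 ^ j := pow_le_pow_right₀ (by norm_num) h
    have h2 := hi.2
    have h3 := hj.1
    linarith
  · have h1 : (4 : ℝ) ^ (j + 1) ≤ 4 ^ i := pow_le_pow_right₀ (by norm_num) h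
    have h2 := hj.2
    have h3 := hi.1
    linarith

lemma crq_wave {q : ℝ} (hq : 1 ≤ q) {F : Finset K3} (hc : F.card ≤ 4) {w : K3 → E3} {c : ℝ}
    (hc0 : 0 ≤ c) (hs : ∀ k, k ∉ F → w k = 0) (hb : ∀ k, ‖w k‖ ≤ c * ab k) :
    crq q w ≤ ENNReal.ofReal ((8 * c) ^ q) := by
  have h1 : crq q w ≤ (∑' j : ℕ, (2 : ℝ≥0∞)⁻¹ ^ j *
      ∑' k : K3, (open Classical in if k ∈ shell j then ‖w k‖ₑ else 0)) ^ q := by
    unfold crq
    exact tsum_rpow_le hq _
  refine h1.trans ?_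
  have h2 : (∑' j : ℕ, (2 : ℝ≥0∞)⁻¹ ^ j *
      ∑' k : K3, (open Classical in if k ∈ shell j then ‖w k‖ₑ else 0)) ≤
      ENNReal.ofReal (8 * c) := by
    classical
    simp_rw [← ENNReal.tsum_mul_left]
    rw [ENNReal.tsum_comm]
    have h3 : ∀ k : K3, (∑' j : ℕ, (2 : ℝ≥0∞)⁻¹ ^ j *
        (if k ∈ shell j then ‖w k‖ₑ else 0)) ≤ if k ∈ F then ENNReal.ofReal (2 * c) else 0 := by
      intro k
      split_ifs with hk
      · by_cases hj : ∃ j, k ∈ shell j
        · obtain ⟨j0, hj0⟩ := hj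
          rw [tsum_eq_single j0]
          · rw [if_pos hj0, ← ofReal_norm]
            have e2 : (2 : ℝ≥0∞)⁻¹ ^ j0 = ENNReal.ofReal (((2 : ℝ)⁻¹) ^ j0) := by
              rw [ENNReal.ofReal_pow (by norm_num), ENNReal.ofReal_inv_of_pos (by norm_num)]
              norm_num
            rw [e2, ← ENNReal.ofReal_mul (by positivity)]
            apply ENNReal.ofReal_le_ofReal
            have h4 : ab k ≤ 2 * 2 ^ j0 := by
              unfold ab
              rw [Real.sqrt_le_left (by positivity)]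
              have := hj0.2.le
              refine this.trans (le_of_eq ?_)
              rw [mul_pow, ← pow_mul, mul_comm j0 2, pow_mul, pow_succ]
              norm_num
              ring
            calc (2 : ℝ)⁻¹ ^ j0 * ‖w k‖ ≤ (2 : ℝ)⁻¹ ^ j0 * (c * (2 * 2 ^ j0)) := by
                  apply mul_le_mul_of_nonneg_left _ (by positivity)
                  exact (hb k).trans (mul_le_mul_of_nonneg_left h4 hc0)
              _ = 2 * c * ((2 : ℝ)⁻¹ ^ j0 * 2 ^ j0) := by ring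
              _ = 2 * c := by
                  rw [← mul_pow]; norm_num
          · intro j hj
            rw [if_neg (fun h => hj (shell_inj h hj0)), mul_zero]
        · push Not at hj
          have : (∑' j : ℕ, (2 : ℝ≥0∞)⁻¹ ^ j * (if k ∈ shell j then ‖w k‖ₑ else 0)) = 0 := by
            rw [ENNReal.tsum_eq_zero]
            intro j
            rw [if_neg (hj j), mul_zero]
          rw [this]
          exact bot_le
      · have : (∑' j : ℕ, (2 : ℝ≥0∞)⁻¹ ^ j * (if k ∈ shell j then ‖w k‖ₑ else 0)) = 0 := by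
          rw [ENNReal.tsum_eq_zero]
          intro j
          rw [hs k hk]
          simp
        rw [this]
    refine (ENNReal.tsum_le_tsum h3).trans ?_
    rw [tsum_eq_sum (s := F) (fun k hk => if_neg hk)]
    rw [Finset.sum_congr rfl (fun k hk => if_pos hk), Finset.sum_const, nsmul_eq_mul]
    calc (F.card : ℝ≥0∞) * ENNReal.ofReal (2 * c) ≤ (4 : ℝ≥0∞) * ENNReal.ofReal (2 * c) := by
          gcongr
          exact_mod_cast hc
      _ = ENNReal.ofReal 4 * ENNReal.ofReal (2 * c) := by norm_num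
      _ = ENNReal.ofReal (8 * c) := by
          rw [← ENNReal.ofReal_mul (by norm_num)]
          congr 1
          ring
  calc _ ≤ (ENNReal.ofReal (8 * c)) ^ q := ENNReal.rpow_le_rpow h2 (by linarith)
    _ = ENNReal.ofReal ((8 * c) ^ q) := ENNReal.ofReal_rpow_of_nonneg (by positivity) (by linarith)

/-! ### the start -/

lemma A_zero (m : ℕ) (S : Finset K3) : A m S (0 : K3 → E3) = 0 := by
  unfold A
  simp

lemma A_nonneg (m : ℕ) (S : Finset K3) (a : K3 → E3) : 0 ≤ A m S a := by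
  unfold A
  apply Finset.sum_nonneg
  intro k _
  unfold ab
  positivity

lemma bd_zero (hprop : S_prop) {ν : ℝ} (hν : 0 < ν) (F : Finset K3) {θ ρ : ℝ} (hθ : 0 < θ)
    (hρ : 0 ≤ ρ) : Bd ν F (0 : K3 → E3) 0 θ ρ := by
  intro S hS _ T hT x hx
  have h : ∀ m : ℕ, ∀ t ∈ Icc 0 T, A m S (x t) = 0 := by
    intro m t ht
    obtain ⟨C, _, hC⟩ := hprop.1 m
    have h1 := hC S hS ν T hν hT 0 x hx t ht
    rw [A_zero, zero_mul] at h1
    exact le_antisymm h1 (A_nonneg _ _ _)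
  constructor
  · have e : (∫ s in (0 : ℝ)..T, A 0 S (x s) ^ 2) = ∫ s in (0 : ℝ)..T, (0 : ℝ) := by
      apply intervalIntegral.integral_congr
      intro s hs
      rw [uIcc_of_le hT.le] at hs
      show A 0 S (x s) ^ 2 = 0
      rw [h 0 s hs]
      norm_num
    rw [e]
    simp
  · intro hθT
    have e : (∫ s in θ..T, A 1 S (x s)) = ∫ s in θ..T, (0 : ℝ) := by
      apply intervalIntegral.integral_congr
      intro s hs
      rw [uIcc_of_le hθT] at hs
      exact h 1 s ⟨hθ.le.trans hs.1, hs.2⟩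
    rw [e]
    simpa using hρ

lemma exists_J (F : Finset K3) : ∃ J : ℕ, ∀ k ∈ F, W785.DF.sq k < (4 : ℝ) ^ J := by
  obtain ⟨J, hJ⟩ := pow_unbounded_of_one_lt (∑ k ∈ F, W785.DF.sq k) (by norm_num : (1 : ℝ) < 4)
  refine ⟨J, fun k hk => lt_of_le_of_lt ?_ hJ⟩
  exact Finset.single_le_sum (f := fun k => W785.DF.sq k) (fun k _ => sq_nonneg' k) hk

/-- the sum of the fields of a list -/
noncomputable def sumL (L : List (K3 × K3 × ℂ)) : K3 → E3 :=
  (L.map fun τ => MF τ.1 τ.2.1 τ.2.2).sum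

lemma chainL (hprop : S_prop) {ν q : ℝ} (hν : 0 < ν) (hq : 1 ≤ q) {F0 : Finset K3} (hF0 : Fr F0)
    {θ δ : ℝ} (hθ : 0 < θ) (C1 : K3 → K3 → ℝ) (hC0 : ∀ μ p, 0 < C1 μ p)
    (hC : ∀ μ p : K3, μ ≠ 0 → p ≠ 0 → ∑ j, μ j * p j = 0 →
      ∀ (z : ℂ) (θ : ℝ), 0 < θ → ∀ (F0 : Finset K3) (b0 : K3 → E3) (K ρ ρ' : ℝ),
      Fr F0 → Fld F0 b0 → Bd ν F0 b0 K θ ρ → ρ < ρ' → ∀ N1 : ℕ,
      ∃ (F : Finset K3) (w0 : K3 → E3) (K' : ℝ), Fr F ∧ Fld F w0 ∧ F.card ≤ 4 ∧
        (∀ k ∈ F, (N1 : ℝ) ≤ ab k) ∧ (∀ k, ‖w0 k‖ ≤ C1 μ p * Real.sqrt ‖z‖ * ab k) ∧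
        Bd ν (F0 ∪ ({μ, -μ} ∪ F)) (b0 + MF μ p z + w0) K' θ ρ')
    (L : List (K3 × K3 × ℂ)) :
    (∀ τ ∈ L, τ.1 ∈ F0 ∧ τ.2.1 ≠ 0 ∧ ∑ j, τ.1 j * τ.2.1 j = 0 ∧
      (8 * (C1 τ.1 τ.2.1 * Real.sqrt ‖τ.2.2‖)) ^ q ≤ δ) → ∀ ρ : ℝ, 0 < ρ →
    ∃ (F : Finset K3) (W : K3 → E3) (K : ℝ), Fr F ∧ Fld F W ∧ F0 ⊆ F ∧ Fld F (sumL L) ∧
      crq q W ≤ L.length * ENNReal.ofReal δ ∧ Bd ν F (sumL L + W) K θ ρ := by
  induction L with
  | nil =>
    intro _ ρ hρ
    refine ⟨F0, 0, 0, hF0, fld_zero F0, Finset.Subset.refl _, fld_zero F0, ?_, ?_⟩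
    · rw [crq_zero (by linarith)]
      exact bot_le
    · have : sumL [] + (0 : K3 → E3) = 0 := by simp [sumL]
      rw [this]
      exact bd_zero hprop hν F0 hθ hρ.le
  | cons τ L ih =>
    intro hL ρ hρ
    obtain ⟨F, W, K, i1, i2, i3, i4, i5, i6⟩ := ih (fun τ' h => hL τ' (List.mem_cons_of_mem _ h))
      (ρ / 2) (by linarith)
    obtain ⟨t1, t2, t3, t4⟩ := hL τ List.mem_cons_self
    obtain ⟨μ, p, z⟩ := τ
    simp only at t1 t2 t3 t4
    have hμ0 : μ ≠ 0 := fun e => hF0.zero (e ▸ t1)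
    obtain ⟨J, hJ⟩ := exists_J F
    obtain ⟨F', w0, K', j1, j2, j3, j4, j5, j6⟩ := hC μ p hμ0 t2 t3 z θ hθ F (sumL L + W) K
      (ρ / 2) ρ i1 (fld_add i4 i2) i6 (by linarith) (2 ^ J)
    have hsub1 : F ⊆ F ∪ ({μ, -μ} ∪ F') := Finset.subset_union_left
    have hsub2 : F' ⊆ F ∪ ({μ, -μ} ∪ F') :=
      Finset.subset_union_right.trans Finset.subset_union_right
    have hfr := fr_union i1 j1 hμ0
    refine ⟨F ∪ ({μ, -μ} ∪ F'), W + w0, K', hfr,
      fld_add (fld_mono hsub1 i2) (fld_mono hsub2 j2), i3.trans hsub1, ?_, ?_, ?_⟩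
    · have e : sumL ((μ, p, z) :: L) = MF μ p z + sumL L := by simp [sumL]
      rw [e]
      exact fld_add (fld_MF hfr (hsub1 (i3 t1)) t3 z) (fld_mono hsub1 i4)
    · have k1 : crq q (W + w0) ≤ crq q W + crq q w0 := by
        apply crq_add J
        · intro k hk
          apply i2.supp
          intro h
          exact absurd (hJ k h) (not_lt.2 hk)
        · intro k hk
          apply j2.supp
          intro h
          have h1 := j4 k h
          have h2 : (4 : ℝ) ^ J ≤ W785.DF.sq k := by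
            unfold ab at h1
            rw [Real.le_sqrt' (by positivity)] at h1
            refine le_trans (le_of_eq ?_) h1
            push_cast
            rw [← pow_mul, mul_comm J 2, pow_mul]
            norm_num
          exact absurd hk (not_lt.2 h2)
      have k2 : crq q w0 ≤ ENNReal.ofReal δ := by
        refine (crq_wave hq j3 (c := C1 μ p * Real.sqrt ‖z‖) ?_ j2.supp j5).trans ?_
        · have := (hC0 μ p).le
          positivity
        · exact ENNReal.ofReal_le_ofReal t4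
      calc crq q (W + w0) ≤ crq q W + crq q w0 := k1
        _ ≤ L.length * ENNReal.ofReal δ + ENNReal.ofReal δ := add_le_add i5 k2
        _ = _ := by
          rw [List.length_cons]
          push_cast
          ring
    · have e : sumL ((μ, p, z) :: L) + (W + w0) = sumL L + W + MF μ p z + w0 := by
        have : sumL ((μ, p, z) :: L) = MF μ p z + sumL L := by simp [sumL]
        rw [this]
        abel
      rw [e]
      exact j6

/-! ### splitting -/

lemma MF_split (μ p : K3) (z : ℂ) {n : ℕ} (hn : n ≠ 0) : n • MF μ p (z / n) = MF μ p z := by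
  have hn' : (n : ℂ) ≠ 0 := Nat.cast_ne_zero.2 hn
  funext k
  unfold MF
  rw [Pi.smul_apply]
  split_ifs with h1 h2
  · rw [← Nat.cast_smul_eq_nsmul ℂ, smul_smul, mul_div_cancel₀ _ hn']
  · rw [← Nat.cast_smul_eq_nsmul ℂ, smul_smul]
    congr 1
    rw [star_div₀]
    simp only [Complex.star_def, Complex.conj_natCast]
    rw [mul_div_cancel₀ _ hn']
  · simp

lemma sumL_split (L : List (K3 × K3 × ℂ)) {n : ℕ} (hn : n ≠ 0) :
    sumL (L.flatMap fun τ => List.replicate n (τ.1, τ.2.1, τ.2.2 / (n : ℂ))) = sumL L := by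
  induction L with
  | nil => simp [sumL]
  | cons τ L ih =>
    unfold sumL at ih ⊢
    rw [List.flatMap_cons, List.map_append, List.sum_append, ih, List.map_replicate,
      List.sum_replicate, List.map_cons, List.sum_cons, MF_split _ _ _ hn]

lemma exists_n {q : ℝ} (hq : 2 < q) (B ε M : ℝ) (hB : 0 ≤ B) (hε : 0 < ε) :
    ∃ n : ℕ, n ≠ 0 ∧ M * n * (B / Real.sqrt n) ^ q ≤ ε := by
  have h1 : Tendsto (fun x : ℝ => M * B ^ q * x ^ (-(q / 2 - 1))) atTop (𝓝 (M * B ^ q * 0)) :=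
    (tendsto_rpow_neg_atTop (by linarith)).const_mul _
  rw [mul_zero] at h1
  have h2 := h1.comp tendsto_natCast_atTop_atTop
  have h3 : ∀ᶠ n : ℕ in atTop, M * B ^ q * (n : ℝ) ^ (-(q / 2 - 1)) < ε :=
    h2.eventually (gt_mem_nhds hε)
  obtain ⟨n, hn1, hn2⟩ := (h3.and (eventually_gt_atTop 0)).exists
  refine ⟨n, hn2.ne', ?_⟩
  have hn0 : (0 : ℝ) < n := Nat.cast_pos.2 hn2
  refine le_trans (le_of_eq ?_) hn1.le
  rw [Real.div_rpow hB (Real.sqrt_nonneg _), Real.sqrt_eq_rpow, ← Real.rpow_mul hn0.le]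
  have e : -(q / 2 - 1) = 1 - 1 / 2 * q := by ring
  rw [e, Real.rpow_sub hn0, Real.rpow_one]
  ring

/-- DD-CHAIN -/
theorem proof (hstep : S_step) (hmodes : S_modes) (hprop : S_prop) : S_chain := by
  intro ν q hν hq F0 D hF0 hD ε θ ρ hε hθ hρ
  obtain ⟨L, hL, hLD⟩ := hmodes F0 hF0 D hD
  have hs : ∀ μ p : K3, ∃ C1 : ℝ, 0 < C1 ∧ (μ ≠ 0 → p ≠ 0 → ∑ j, μ j * p j = 0 →
      ∀ (z : ℂ) (θ : ℝ), 0 < θ → ∀ (F0 : Finset K3) (b0 : K3 → E3) (K ρ ρ' : ℝ),
      Fr F0 → Fld F0 b0 → Bd ν F0 b0 K θ ρ → ρ < ρ' → ∀ N1 : ℕ,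
      ∃ (F : Finset K3) (w0 : K3 → E3) (K' : ℝ), Fr F ∧ Fld F w0 ∧ F.card ≤ 4 ∧
        (∀ k ∈ F, (N1 : ℝ) ≤ ab k) ∧ (∀ k, ‖w0 k‖ ≤ C1 * Real.sqrt ‖z‖ * ab k) ∧
        Bd ν (F0 ∪ ({μ, -μ} ∪ F)) (b0 + MF μ p z + w0) K' θ ρ') := by
    intro μ p
    by_cases h : μ ≠ 0 ∧ p ≠ 0 ∧ ∑ j, μ j * p j = 0
    · obtain ⟨C1, h0, h1⟩ := hstep ν hν μ p h.1 h.2.1 h.2.2
      exact ⟨C1, h0, fun _ _ _ => h1⟩
    · exact ⟨1, one_pos, fun a b c => absurd ⟨a, b, c⟩ h⟩
  choose C1 hC0 hC using hs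
  obtain ⟨B, hB0, hB⟩ : ∃ B : ℝ, 0 ≤ B ∧
      ∀ τ ∈ L, 8 * (C1 τ.1 τ.2.1 * Real.sqrt ‖τ.2.2‖) ≤ B := by
    clear hLD hL
    induction L with
    | nil => exact ⟨0, le_rfl, fun τ h => absurd h (List.not_mem_nil)⟩
    | cons τ L ih =>
      obtain ⟨B, hB0, hB⟩ := ih
      refine ⟨max B (8 * (C1 τ.1 τ.2.1 * Real.sqrt ‖τ.2.2‖)), le_max_of_le_left hB0, ?_⟩
      intro τ' h
      rcases List.mem_cons.1 h with h | h
      · rw [h]
        exact le_max_right _ _
      · exact (hB τ' h).trans (le_max_left _ _)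
  obtain ⟨n, hn, hnε⟩ := exists_n hq B ε L.length hB0 hε
  have hn0 : (0 : ℝ) < n := Nat.cast_pos.2 (Nat.pos_of_ne_zero hn)
  obtain ⟨F, W, K, i1, i2, i3, i4, i5, i6⟩ := chainL hprop hν (by linarith : (1 : ℝ) ≤ q) hF0
    (δ := (B / Real.sqrt n) ^ q) hθ C1 hC0 (fun μ p a b c => hC μ p a b c)
    (L.flatMap fun τ => List.replicate n (τ.1, τ.2.1, τ.2.2 / (n : ℂ))) (by
      intro τ hτ
      rw [List.mem_flatMap] at hτ
      obtain ⟨τ0, h0, h1⟩ := hτ
      have h2 := List.eq_of_mem_replicate h1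
      obtain ⟨a1, a2, a3⟩ := hL τ0 h0
      rw [h2]
      refine ⟨a1, a2, a3, ?_⟩
      simp only
      apply Real.rpow_le_rpow
      · have := (hC0 τ0.1 τ0.2.1).le
        positivity
      · rw [norm_div, Complex.norm_natCast, Real.sqrt_div (norm_nonneg _)]
        have := hB τ0 h0
        calc 8 * (C1 τ0.1 τ0.2.1 * (Real.sqrt ‖τ0.2.2‖ / Real.sqrt n))
            = 8 * (C1 τ0.1 τ0.2.1 * Real.sqrt ‖τ0.2.2‖) / Real.sqrt n := by ring
          _ ≤ B / Real.sqrt n := div_le_div_of_nonneg_right this (Real.sqrt_nonneg _)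
      · linarith) ρ hρ
  rw [sumL_split L hn] at i6
  have hD' : sumL L = D := hLD
  rw [hD'] at i6
  refine ⟨F, W, K, i1, i2, i3, i5.trans ?_, i6⟩
  have hlen : (L.flatMap fun τ => List.replicate n (τ.1, τ.2.1, τ.2.2 / (n : ℂ))).length =
      L.length * n := by
    rw [List.length_flatMap]
    simp
  rw [hlen]
  have e : ((L.length * n : ℕ) : ℝ≥0∞) = ENNReal.ofReal ((L.length : ℝ) * n) := by
    rw [← Nat.cast_mul, ENNReal.ofReal_natCast]
  rw [e, ← ENNReal.ofReal_mul (by positivity)]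
  exact ENNReal.ofReal_le_ofReal hnε

end Pool.Agent.W948.DD
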